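import Mathlib

/-!
# BR, block END: the ring representing families of algebra homomorphisms `A i → M_(m i)`
-/

set_option autoImplicit false

namespace Pool.Agent.Helper35.BR

open MvPolynomial

section Ring

variable (R : Type) [CommRing R] {r : ℕ} (A : Fin r → Type) [∀ i, Ring (A i)]
  [∀ i, Algebra R (A i)] (m : Fin r → ℕ)

/-- the variables: matrix entries of the elements of the algebras `A i` -/
abbrev HVar : Type := Σ i : Fin r, A i × Fin (m i) × Fin (m i)

/-- the relations: `a ↦ (X(a, p, q))` is a homomorphism of `R`-algebras -/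
def homRel : Set (MvPolynomial (HVar A m) R) :=
  {f | ∃ (i : Fin r) (p q : Fin (m i)),
    (∃ a b : A i, f = X ⟨i, a + b, p, q⟩ - X ⟨i, a, p, q⟩ - X ⟨i, b, p, q⟩) ∨
    (∃ (c : R) (a : A i), f = X ⟨i, c • a, p, q⟩ - C c * X ⟨i, a, p, q⟩) ∨
    (∃ a b : A i, f = X ⟨i, a * b, p, q⟩ - ∑ s, X ⟨i, a, p, s⟩ * X ⟨i, b, s, q⟩) ∨
    f = X ⟨i, 1, p, q⟩ - C ((1 : Matrix (Fin (m i)) (Fin (m i)) R) p q)}

/-- the ring representing families of homomorphisms of `R`-algebras `A i → M_(m i)` -/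
abbrev HomRing : Type := MvPolynomial (HVar A m) R ⧸ Ideal.span (homRel R A m)

end Ring

/-- `ρ` is a homomorphism of rings which is compatible with `φ` on the scalars -/
def Over {R : Type} [CommRing R] {A : Type} [Ring A] [Algebra R A] {B : Type} [CommRing B] {m : ℕ}
    (φ : R →+* B) (ρ : A →+* Matrix (Fin m) (Fin m) B) : Prop :=
  ∀ c : R, ρ (algebraMap R A c) = algebraMap B (Matrix (Fin m) (Fin m) B) (φ c)

theorem Over.smul {R : Type} [CommRing R] {A : Type} [Ring A] [Algebra R A] {B : Type}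
    [CommRing B] {m : ℕ} {φ : R →+* B} {ρ : A →+* Matrix (Fin m) (Fin m) B} (h : Over φ ρ)
    (c : R) (a : A) : ρ (c • a) = φ c • ρ a := by
  rw [Algebra.smul_def, map_mul, h, ← Algebra.smul_def]

/-- conjugation by an invertible matrix -/
def conj {B : Type} [CommRing B] {m : ℕ} (u : (Matrix (Fin m) (Fin m) B)ˣ) :
    Matrix (Fin m) (Fin m) B →+* Matrix (Fin m) (Fin m) B where
  toFun x := u * x * ((u⁻¹ : (Matrix (Fin m) (Fin m) B)ˣ) : Matrix (Fin m) (Fin m) B)
  map_one' := by rw [mul_one, Units.mul_inv]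
  map_mul' x y := by
    simp only [mul_assoc]
    congr 2
    rw [← mul_assoc _ (u : Matrix (Fin m) (Fin m) B), Units.inv_mul, one_mul]
  map_zero' := by rw [mul_zero, zero_mul]
  map_add' x y := by rw [mul_add, add_mul]

theorem Over.conj {R : Type} [CommRing R] {A : Type} [Ring A] [Algebra R A] {B : Type}
    [CommRing B] {m : ℕ} {φ : R →+* B} {ρ : A →+* Matrix (Fin m) (Fin m) B} (h : Over φ ρ)
    (u : (Matrix (Fin m) (Fin m) B)ˣ) : Over φ ((Pool.Agent.Helper35.BR.conj u).comp ρ) := by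
  intro c
  change u * ρ (algebraMap R A c) * _ = _
  rw [h, ← Algebra.commutes, mul_assoc, Units.mul_inv, mul_one]

theorem Over.comp {R : Type} [CommRing R] {A : Type} [Ring A] [Algebra R A] {B B' : Type}
    [CommRing B] [CommRing B'] {m : ℕ} {φ : R →+* B} {ρ : A →+* Matrix (Fin m) (Fin m) B}
    (h : Over φ ρ) (ψ : B →+* B') : Over (ψ.comp φ) (ψ.mapMatrix.comp ρ) := by
  intro c
  change ψ.mapMatrix (ρ (algebraMap R A c)) = _
  rw [h]
  ext p q
  rw [RingHom.mapMatrix_apply, Matrix.map_apply, Matrix.algebraMap_matrix_apply,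
    Matrix.algebraMap_matrix_apply]
  by_cases h : p = q
  · rw [if_pos h, if_pos h]; rfl
  · rw [if_neg h, if_neg h, map_zero]

section Lift

variable {R : Type} [CommRing R] {r : ℕ} {A : Fin r → Type} [∀ i, Ring (A i)]
  [∀ i, Algebra R (A i)] {m : Fin r → ℕ} {B : Type} [CommRing B]

/-- the coordinates -/
noncomputable def cd (R : Type) [CommRing R] {r : ℕ} (A : Fin r → Type) [∀ i, Ring (A i)]
    [∀ i, Algebra R (A i)] (m : Fin r → ℕ) (v : HVar A m) : HomRing R A m :=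
  Ideal.Quotient.mk _ (X v)

/-- a family of representations gives a point -/
noncomputable def lift (φ : R →+* B) (ρ : ∀ i, A i →+* Matrix (Fin (m i)) (Fin (m i)) B)
    (hρ : ∀ i, Over φ (ρ i)) : HomRing R A m →+* B :=
  Ideal.Quotient.lift _ (eval₂Hom φ fun v : HVar A m => ρ v.1 v.2.1 v.2.2.1 v.2.2.2) (by
    intro f hf
    have h : Ideal.span (homRel R A m) ≤
        RingHom.ker (eval₂Hom φ fun v : HVar A m => ρ v.1 v.2.1 v.2.2.1 v.2.2.2) := by
      rw [Ideal.span_le]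
      rintro f ⟨i, p, q, ⟨a, b, rfl⟩ | ⟨c, a, rfl⟩ | ⟨a, b, rfl⟩ | rfl⟩
      · simp [RingHom.mem_ker, Matrix.add_apply]
      · simp [RingHom.mem_ker, (hρ i).smul, Matrix.smul_apply]
      · simp [RingHom.mem_ker, Matrix.mul_apply]
      · simp only [SetLike.mem_coe, RingHom.mem_ker, map_sub, coe_eval₂Hom, eval₂_X, eval₂_C,
          map_one]
        by_cases h : p = q
        · subst h; simp
        · simp [Matrix.one_apply_ne h]
    exact h hf)

theorem lift_cd (φ : R →+* B) (ρ : ∀ i, A i →+* Matrix (Fin (m i)) (Fin (m i)) B)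
    (hρ : ∀ i, Over φ (ρ i)) (v : HVar A m) :
    lift φ ρ hρ (cd R A m v) = ρ v.1 v.2.1 v.2.2.1 v.2.2.2 := by
  exact (Ideal.Quotient.lift_mk _ _ _).trans (eval₂Hom_X' _ _ _)

theorem lift_algebraMap (φ : R →+* B) (ρ : ∀ i, A i →+* Matrix (Fin (m i)) (Fin (m i)) B)
    (hρ : ∀ i, Over φ (ρ i)) (c : R) :
    lift φ ρ hρ (algebraMap R (HomRing R A m) c) = φ c := by
  exact (Ideal.Quotient.lift_mk _ _ _).trans (eval₂Hom_C _ _ _)

theorem hom_ext {χ χ' : HomRing R A m →+* B} (h1 : ∀ c, χ (algebraMap R _ c) =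
    χ' (algebraMap R _ c)) (h2 : ∀ v, χ (cd R A m v) = χ' (cd R A m v)) : χ = χ' := by
  apply Ideal.Quotient.ringHom_ext
  apply MvPolynomial.ringHom_ext
  · intro c; exact h1 c
  · intro v; exact h2 v

/-- the universal representation -/
noncomputable def univ (R : Type) [CommRing R] {r : ℕ} (A : Fin r → Type) [∀ i, Ring (A i)]
    [∀ i, Algebra R (A i)] (m : Fin r → ℕ) (i : Fin r) :
    A i →+* Matrix (Fin (m i)) (Fin (m i)) (HomRing R A m) where
  toFun a := Matrix.of fun p q => cd R A m ⟨i, a, p, q⟩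
  map_one' := by
    ext p q
    rw [Matrix.of_apply]
    have h : X ⟨i, 1, p, q⟩ - C ((1 : Matrix (Fin (m i)) (Fin (m i)) R) p q) ∈
        Ideal.span (homRel R A m) :=
      Ideal.subset_span ⟨i, p, q, Or.inr (Or.inr (Or.inr rfl))⟩
    have h2 := Ideal.Quotient.eq.2 h
    rw [cd, h2]
    by_cases h : p = q
    · subst h; simp
    · simp [Matrix.one_apply_ne h]
  map_mul' a b := by
    ext p q
    rw [Matrix.of_apply, Matrix.mul_apply]
    have h : X ⟨i, a * b, p, q⟩ - ∑ s, X ⟨i, a, p, s⟩ * X ⟨i, b, s, q⟩ ∈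
        Ideal.span (homRel R A m) :=
      Ideal.subset_span ⟨i, p, q, Or.inr (Or.inr (Or.inl ⟨a, b, rfl⟩))⟩
    have h2 := Ideal.Quotient.eq.2 h
    rw [cd, h2, map_sum]
    exact Finset.sum_congr rfl fun s _ => by rw [map_mul]; rfl
  map_zero' := by
    ext p q
    rw [Matrix.of_apply]
    have h : X ⟨i, (0 : R) • (0 : A i), p, q⟩ - C 0 * X ⟨i, 0, p, q⟩ ∈
        Ideal.span (homRel R A m) :=
      Ideal.subset_span ⟨i, p, q, Or.inr (Or.inl ⟨0, 0, rfl⟩)⟩
    have h2 := Ideal.Quotient.eq.2 h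
    rw [zero_smul] at h2
    rw [cd, h2]
    simp
  map_add' a b := by
    ext p q
    rw [Matrix.of_apply, Matrix.add_apply, Matrix.of_apply, Matrix.of_apply]
    have h : X ⟨i, a + b, p, q⟩ - (X ⟨i, a, p, q⟩ + X ⟨i, b, p, q⟩) ∈
        Ideal.span (homRel R A m) :=
      Ideal.subset_span ⟨i, p, q, Or.inl ⟨a, b, by ring⟩⟩
    have h2 := Ideal.Quotient.eq.2 h
    rw [cd, h2, map_add]
    rfl

theorem univ_apply (i : Fin r) (a : A i) (p q : Fin (m i)) :
    univ R A m i a p q = cd R A m ⟨i, a, p, q⟩ := rfl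

theorem univ_over (i : Fin r) : Over (algebraMap R (HomRing R A m)) (univ R A m i) := by
  intro c
  ext p q
  rw [univ_apply]
  have h : X ⟨i, c • (1 : A i), p, q⟩ - C c * X ⟨i, 1, p, q⟩ ∈ Ideal.span (homRel R A m) :=
    Ideal.subset_span ⟨i, p, q, Or.inr (Or.inl ⟨c, 1, rfl⟩)⟩
  have h2 := Ideal.Quotient.eq.2 h
  rw [Algebra.algebraMap_eq_smul_one, cd, h2, map_mul]
  have h3 : cd R A m ⟨i, 1, p, q⟩ = (1 : Matrix (Fin (m i)) (Fin (m i)) (HomRing R A m)) p q := by
    rw [← univ_apply, map_one]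
  change _ * cd R A m ⟨i, 1, p, q⟩ = _
  rw [h3, Matrix.algebraMap_matrix_apply]
  by_cases h : p = q
  · subst h; simp; rfl
  · simp [Matrix.one_apply_ne h, h]

end Lift

end Pool.Agent.Helper35.BR
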