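import Pool.Agent.Helper98.BR.Gen

/-!
# BR, block END, P5: points of `R` extend to finitely generated subalgebras
-/

set_option autoImplicit false

namespace Pool.Agent.Helper35.BR

open Pool.Agent.Helper98.BR

/-- **P5.** -/
theorem exists_ext {R : Type} [CommRing R] [IsDomain R]
    (S : Subalgebra R (AlgebraicClosure (FractionRing R))) (hS : S.FG) :
    ∃ δ : R, δ ≠ 0 ∧ ∀ (Ω : Type) [Field Ω] [IsAlgClosed Ω] (φ : R →+* Ω), φ δ ≠ 0 →
      ∃ ψ : S →+* Ω, ψ.comp (algebraMap R S) = φ := by
  classical
  have h1 : Algebra.IsAlgebraic R (AlgebraicClosure (FractionRing R)) :=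
    (IsFractionRing.comap_isAlgebraic_iff (K := FractionRing R)).2 inferInstance
  have hinj : Function.Injective (algebraMap R (AlgebraicClosure (FractionRing R))) := by
    rw [IsScalarTower.algebraMap_eq R (FractionRing R) (AlgebraicClosure (FractionRing R))]
    exact (algebraMap (FractionRing R) (AlgebraicClosure (FractionRing R))).injective.comp
      (IsFractionRing.injective R (FractionRing R))
  obtain ⟨T, hT⟩ := hS
  obtain ⟨δ, hδ, hint⟩ := Algebra.IsAlgebraic.exists_integral_multiples R T
  have hle : S ≤ locInt R (AlgebraicClosure (FractionRing R)) δ := by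
    rw [← hT, Algebra.adjoin_le_iff]
    intro x hx
    exact ⟨1, by rw [pow_one]; exact hint x hx⟩
  refine ⟨δ, hδ, fun Ω _ _ φ hφ => ?_⟩
  obtain ⟨ε, hε⟩ := exists_extend_locInt hinj hδ φ hφ
  refine ⟨ε.comp (Subalgebra.inclusion hle : S →+* locInt R _ δ), ?_⟩
  ext c
  exact hε c

end Pool.Agent.Helper35.BR
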