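import Pool.Agent.Helper35.BR.Defs
import Pool.Agent.Helper15.PotDense
import Pool.Agent.Helper65.CB.Dom

/-!
# BR, block END: density with nilpotents (P10a), points over infinite fields (P7), multiples (P6)
-/

set_option autoImplicit false

namespace Pool.Agent.Helper35.BR

open MvPolynomial TensorProduct AlgebraicGeometry CategoryTheory Pool.Agent.Helper15
open Pool.Agent.Helper65.CB

/-- **P10a.** -/
theorem dense_ratPts_spec' (K : Type) [Field K] (L : Type) [Field L] [Algebra K L]
    (A : Type) [CommRing A] [Algebra K A]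
    (h : ∀ g : A, ¬ IsNilpotent g → ∃ φ : A →ₐ[K] L, φ g ≠ 0) :
    Dense (ratPts K L (Spec (CommRingCat.of A))
      (Spec.map (CommRingCat.ofHom (algebraMap K A)))) := by
  have hsub : {x : PrimeSpectrum A | ∃ φ : A →ₐ[K] L, x.asIdeal = RingHom.ker φ} ⊆
      (ratPts K L (Spec (CommRingCat.of A))
      (Spec.map (CommRingCat.ofHom (algebraMap K A)))) := by
    rintro x ⟨φ, hφ⟩
    refine ⟨Spec.map (CommRingCat.ofHom (φ : A →+* L)), ?_, ⟨(⊥ : PrimeSpectrum L), ?_⟩⟩
    · rw [← Spec.map_comp, ← CommRingCat.ofHom_comp]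
      congr 2
      exact φ.comp_algebraMap
    · apply PrimeSpectrum.ext
      rw [hφ]
      rfl
  have hd : Dense {x : PrimeSpectrum A | ∃ φ : A →ₐ[K] L, x.asIdeal = RingHom.ker φ} := by
    rw [dense_iff_closure_eq, ← PrimeSpectrum.zeroLocus_vanishingIdeal_eq_closure,
      Set.eq_univ_iff_forall]
    intro y g hg
    rw [SetLike.mem_coe, PrimeSpectrum.mem_vanishingIdeal] at hg
    have hn : IsNilpotent g := by
      by_contra hn
      obtain ⟨φ, hφ⟩ := h g hn
      have hprime : (RingHom.ker φ).IsPrime := RingHom.ker_isPrime φ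
      exact hφ (hg ⟨RingHom.ker φ, hprime⟩ ⟨φ, rfl⟩)
    obtain ⟨k, hk⟩ := hn
    exact y.2.mem_of_pow_mem k (by rw [hk]; exact y.asIdeal.zero_mem)
  exact Dense.mono hsub hd

/-- **P7.** -/
theorem exists_point {L Ω : Type} [Field L] [Infinite L] [Field Ω] [Algebra L Ω] {σ : Type}
    [Finite σ] (G : MvPolynomial σ Ω) (hG : G ≠ 0) :
    ∃ x : σ → L, eval (fun j => algebraMap L Ω (x j)) G ≠ 0 := by
  by_contra h
  push Not at h
  apply hG
  refine MvPolynomial.funext_set (fun _ => Set.range (algebraMap L Ω)) (fun _ =>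
    Set.infinite_range_of_injective (algebraMap L Ω).injective) (fun x hx => ?_)
  choose y hy using fun j => hx j (Set.mem_univ j)
  rw [map_zero, ← h y]
  congr 2
  funext j
  exact (hy j).symm

/-- an element which is not nilpotent does not vanish at some geometric point -/
theorem exists_geom_point {H : Type} [CommRing H] (g : H) (hg : ¬ IsNilpotent g) :
    ∃ (Ω : Type) (_ : Field Ω) (_ : IsAlgClosed Ω) (χ : H →+* Ω), χ g ≠ 0 := by
  have h : ∃ q : Ideal H, q.IsPrime ∧ g ∉ q := by
    by_contra h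
    push Not at h
    apply hg
    rw [← mem_nilradical, nilradical_eq_sInf, Ideal.mem_sInf]
    exact fun {q} hq => h q hq
  obtain ⟨q, hq, hgq⟩ := h
  refine ⟨AlgebraicClosure (FractionRing (H ⧸ q)), inferInstance, inferInstance,
    (algebraMap (FractionRing (H ⧸ q)) (AlgebraicClosure (FractionRing (H ⧸ q)))).comp
      ((algebraMap (H ⧸ q) (FractionRing (H ⧸ q))).comp (Ideal.Quotient.mk q)), ?_⟩
  intro h0
  have h1 := (map_eq_zero_iff _ (algebraMap (FractionRing (H ⧸ q))
    (AlgebraicClosure (FractionRing (H ⧸ q)))).injective).1 h0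
  have h2 := (map_eq_zero_iff _ (IsFractionRing.injective (H ⧸ q) (FractionRing (H ⧸ q)))).1 h1
  exact hgq (Ideal.Quotient.eq_zero_iff_mem.1 h2)

/-- **P6.** -/
theorem exists_mul {R : Type} [CommRing R] [IsDomain R]
    (S : Subalgebra R (AlgebraicClosure (FractionRing R))) (c : S) (hc : c ≠ 0) :
    ∃ d : R, d ≠ 0 ∧ c ∣ algebraMap R S d := by
  have h1 : Algebra.IsAlgebraic R (AlgebraicClosure (FractionRing R)) :=
    (IsFractionRing.comap_isAlgebraic_iff (K := FractionRing R)).2 inferInstance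
  have h2 : IsAlgebraic R c := by
    have h3 : IsAlgebraic R (c : AlgebraicClosure (FractionRing R)) := h1.isAlgebraic _
    exact (isAlgebraic_algHom_iff S.val Subtype.val_injective).1 h3
  obtain ⟨d, hd, hdvd⟩ := h2.exists_nonzero_dvd (mem_nonZeroDivisors_of_ne_zero hc)
  exact ⟨d, hd, hdvd⟩

end Pool.Agent.Helper35.BR
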