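import Pool.Agent.Helper92.BR.Split
import Pool.Agent.Helper55.BR.Simple
import Pool.Agent.Helper35.BR.Small
import Pool.Agent.Helper35.BR.Ext
import Pool.Agent.Helper98.BR.Skolem
import Pool.Agent.Helper66.BR.ConjPoly
import Pool.Agent.Helper29.BR.DescS
import Pool.Agent.Helper55.BR.Poly

/-!
# BR, block END: assembly
-/

set_option autoImplicit false

namespace Pool.Agent.Helper35.BR

open MvPolynomial TensorProduct AlgebraicGeometry CategoryTheory Pool.Agent.Helper15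
open Pool.Agent.Helper65.CB Pool.Agent.Helper98.BR Pool.Agent.Helper66.BR Pool.Agent.Helper29.BR

/-- **P3b.** -/
theorem generic_split {R : Type} [CommRing R] [IsDomain R] (A : Type) [Ring A] [Algebra R A]
    [Module.Finite R A] (m : ℕ) (hc : Algebra.IsCentral (FractionRing R) (FractionRing R ⊗[R] A))
    (hs : IsSimpleRing (FractionRing R ⊗[R] A))
    (hm : Module.finrank (FractionRing R) (FractionRing R ⊗[R] A) = m ^ 2) :
    ∃ (e : Fin m × Fin m → A) (δ : R)
      (ρ : A →+* Matrix (Fin m) (Fin m) (AlgebraicClosure (FractionRing R))), δ ≠ 0 ∧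
      Over (algebraMap R (AlgebraicClosure (FractionRing R))) ρ ∧
      (∀ a, ∃ c : Fin m × Fin m → R, δ • a = ∑ j, c j • e j) ∧
      (Matrix.of fun j k : Fin m × Fin m => ρ (e j) k.1 k.2).det ≠ 0 :=
  Pool.Agent.Helper92.BR.generic_split_of A m hm
    (Pool.Agent.Helper55.BR.split_closure (FractionRing R ⊗[R] A) m hm)

/-- the value of the lift after a change of rings -/
theorem comp_lift {R : Type} [CommRing R] {r : ℕ} {A : Fin r → Type} [∀ i, Ring (A i)]
    [∀ i, Algebra R (A i)] {m : Fin r → ℕ} {B B' : Type} [CommRing B] [CommRing B']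
    (φ : R →+* B) (ρ : ∀ i, A i →+* Matrix (Fin (m i)) (Fin (m i)) B)
    (hρ : ∀ i, Over φ (ρ i)) (ψ : B →+* B') (φ' : R →+* B')
    (ρ' : ∀ i, A i →+* Matrix (Fin (m i)) (Fin (m i)) B') (hρ' : ∀ i, Over φ' (ρ' i))
    (h1 : ψ.comp φ = φ') (h2 : ∀ i, ψ.mapMatrix.comp (ρ i) = ρ' i) (g : HomRing R A m) :
    ψ (lift φ ρ hρ g) = lift φ' ρ' hρ' g := by
  have h : ψ.comp (lift φ ρ hρ) = lift φ' ρ' hρ' := by
    apply hom_ext
    · intro c
      rw [RingHom.comp_apply, lift_algebraMap, lift_algebraMap, ← h1]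
      rfl
    · intro v
      rw [RingHom.comp_apply, lift_cd, lift_cd, ← h2]
      rfl
  exact DFunLike.congr_fun h g

theorem lift_congr {R : Type} [CommRing R] {r : ℕ} {A : Fin r → Type} [∀ i, Ring (A i)]
    [∀ i, Algebra R (A i)] {m : Fin r → ℕ} {B : Type} [CommRing B] {φ φ' : R →+* B}
    {ρ ρ' : ∀ i, A i →+* Matrix (Fin (m i)) (Fin (m i)) B} (hρ : ∀ i, Over φ (ρ i))
    (hρ' : ∀ i, Over φ' (ρ' i)) (h1 : φ = φ') (h2 : ∀ i, ρ i = ρ' i) (g : HomRing R A m) :
    lift φ ρ hρ g = lift φ' ρ' hρ' g := by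
  obtain rfl : ρ = ρ' := funext h2
  subst h1
  rfl

/-- every point is a lift -/
theorem eq_lift {R : Type} [CommRing R] {r : ℕ} {A : Fin r → Type} [∀ i, Ring (A i)]
    [∀ i, Algebra R (A i)] {m : Fin r → ℕ} {B : Type} [CommRing B] (χ : HomRing R A m →+* B) :
    χ = lift (χ.comp (algebraMap R (HomRing R A m)))
      (fun i => χ.mapMatrix.comp (univ R A m i)) (fun i => (univ_over i).comp χ) := by
  apply hom_ext
  · intro c
    rw [lift_algebraMap]
    rfl
  · intro v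
    rw [lift_cd]
    rfl

theorem conj_conj {B : Type} [CommRing B] {m : ℕ} (u v : (Matrix (Fin m) (Fin m) B)ˣ) :
    (conj u).comp (conj v) = conj (u * v) := by
  ext x : 1
  change (u : Matrix (Fin m) (Fin m) B) * (v * x * _) * _ = ((u * v : (Matrix (Fin m) (Fin m) B)ˣ) :
    Matrix (Fin m) (Fin m) B) * x * _
  rw [mul_inv_rev, Units.val_mul, Units.val_mul]
  simp only [mul_assoc]

theorem map_conj {B B' : Type} [CommRing B] [CommRing B'] {m : ℕ} (ψ : B →+* B')
    (u : (Matrix (Fin m) (Fin m) B)ˣ) :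
    ψ.mapMatrix.comp (conj u) =
      (conj (Units.map (RingHom.toMonoidHom ψ.mapMatrix) u)).comp ψ.mapMatrix := by
  ext x : 1
  change ψ.mapMatrix ((u : Matrix (Fin m) (Fin m) B) * x *
    ((u⁻¹ : (Matrix (Fin m) (Fin m) B)ˣ) : Matrix (Fin m) (Fin m) B)) = _
  rw [map_mul, map_mul]
  rfl

theorem exists_algHom {K R H L : Type} [Field K] [CommRing R] [CommRing H] [Field L] [Algebra K R]
    [Algebra R H] [Algebra K H] [IsScalarTower K R H] [Algebra K L] (φ : R →ₐ[K] L) (χ0 : H →+* L)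
    (h : ∀ c, χ0 (algebraMap R H c) = φ c) :
    ∃ χ : H →ₐ[K] L, (∀ x, χ x = χ0 x) ∧ χ.comp (IsScalarTower.toAlgHom K R H) = φ := by
  refine ⟨{ χ0 with commutes' := fun c => ?_ }, fun x => rfl, AlgHom.ext fun c => h c⟩
  rw [IsScalarTower.algebraMap_apply K R H]
  exact (h _).trans (φ.commutes c)

/-- **P9** with a predicate on the points of the base -/
theorem end_points_good {K : Type} [Field K] {R : Type} [CommRing R] [IsDomain R] [Algebra K R] {r : ℕ}
    (A : Fin r → Type) [∀ i, Ring (A i)] [∀ i, Algebra R (A i)] [∀ i, Module.Finite R (A i)]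
    (m : Fin r → ℕ)
    (hc : ∀ i, Algebra.IsCentral (FractionRing R) (FractionRing R ⊗[R] A i))
    (hs : ∀ i, IsSimpleRing (FractionRing R ⊗[R] A i))
    (hm : ∀ i, Module.finrank (FractionRing R) (FractionRing R ⊗[R] A i) = m i ^ 2)
    (L : Type) [Field L] [Infinite L] [Algebra K L] (Good : (R →ₐ[K] L) → Prop)
    (hpt : ∀ f : R, f ≠ 0 → ∃ φ : R →ₐ[K] L, Good φ ∧ φ f ≠ 0 ∧
      ∀ i, ∃ ρ : A i →+* Matrix (Fin (m i)) (Fin (m i)) L, Over (φ : R →+* L) ρ) :
    ∃ δ : R, δ ≠ 0 ∧ ∀ g : HomRing R A m,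
      ¬ IsNilpotent (g * algebraMap R (HomRing R A m) δ) →
      ∃ χ : HomRing R A m →ₐ[K] L, Good (χ.comp (IsScalarTower.toAlgHom K R (HomRing R A m))) ∧
        χ (g * algebraMap R (HomRing R A m) δ) ≠ 0 := by
  classical
  choose e δ1 ρ0 hδ1 hρ0 hspan hdet using fun i => generic_split (A i) (m i) (hc i) (hs i) (hm i)
  obtain ⟨S, hSfg, ρS, hρS, hρS0⟩ := descend_S A m ρ0 hρ0
  obtain ⟨δ2, hδ2, hext⟩ := exists_ext S hSfg
  -- the determinants
  let D : ∀ i, S := fun i => (Matrix.of fun j k : Fin (m i) × Fin (m i) =>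
    ρS i (e i j) k.1 k.2).det
  have hD : ∀ i, D i ≠ 0 := by
    intro i h0
    apply hdet i
    have h1 := congrArg (S.val : S →+* AlgebraicClosure (FractionRing R)) h0
    rw [map_zero] at h1
    rw [← h1, RingHom.map_det]
    congr 1
    ext j k
    rw [RingHom.mapMatrix_apply, Matrix.map_apply, Matrix.of_apply, Matrix.of_apply, ← hρS0 i]
    rfl
  choose d3 hd3 hd3D using fun i => exists_mul S (D i) (hD i)
  refine ⟨(∏ i, δ1 i) * δ2 * ∏ i, d3 i, mul_ne_zero (mul_ne_zero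
    (Finset.prod_ne_zero_iff.2 fun i _ => hδ1 i) hδ2) (Finset.prod_ne_zero_iff.2 fun i _ => hd3 i),
    fun g hg => ?_⟩
  set δ : R := (∏ i, δ1 i) * δ2 * ∏ i, d3 i with hδ
  set g' : HomRing R A m := g * algebraMap R (HomRing R A m) δ with hg'
  -- consequences of the nonvanishing of `δ` at a point
  have hδall : ∀ (Ω : Type) [Field Ω] (φ : R →+* Ω), φ δ ≠ 0 →
      (∀ i, φ (δ1 i) ≠ 0) ∧ φ δ2 ≠ 0 ∧ ∀ i, φ (d3 i) ≠ 0 := by
    intro Ω _ φ h
    rw [hδ, map_mul, map_mul, map_prod, map_prod] at h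
    refine ⟨fun i => Finset.prod_ne_zero_iff.1 (left_ne_zero_of_mul (left_ne_zero_of_mul h)) i
      (Finset.mem_univ i), right_ne_zero_of_mul (left_ne_zero_of_mul h), fun i =>
      Finset.prod_ne_zero_iff.1 (right_ne_zero_of_mul h) i (Finset.mem_univ i)⟩
  -- all representations at a point of `S` are conjugate to the generic one
  have key : ∀ (Ω : Type) [Field Ω] (φ : R →+* Ω) (ψ : S →+* Ω), ψ.comp (algebraMap R S) = φ →
      φ δ ≠ 0 → ∀ (ρ' : ∀ i, A i →+* Matrix (Fin (m i)) (Fin (m i)) Ω), (∀ i, Over φ (ρ' i)) →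
      ∃ u : ∀ i, (Matrix (Fin (m i)) (Fin (m i)) Ω)ˣ,
        ∀ i, ρ' i = (conj (u i)).comp (ψ.mapMatrix.comp (ρS i)) := by
    intro Ω _ φ ψ hψ hφ ρ' hρ'
    obtain ⟨h1, h2, h3⟩ := hδall Ω φ hφ
    have hex : ∀ i, ∃ u : (Matrix (Fin (m i)) (Fin (m i)) Ω)ˣ,
        ρ' i = (conj u).comp (ψ.mapMatrix.comp (ρS i)) := by
      intro i
      refine skolem φ (e i) (fun a => ?_) (ψ.mapMatrix.comp (ρS i)) (ρ' i) ?_ (hρ' i) ?_
      · obtain ⟨c, hc⟩ := hspan i a
        exact ⟨δ1 i, c, h1 i, hc⟩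
      · rw [← hψ]
        exact (hρS i).comp ψ
      · have h4 : ψ (D i) ≠ 0 := by
          obtain ⟨c, hc⟩ := hd3D i
          intro h0
          apply h3 i
          rw [← hψ, RingHom.comp_apply, hc, map_mul, h0, zero_mul]
        intro h0
        apply h4
        rw [← h0, RingHom.map_det]
        rfl
    choose u hu using hex
    exact ⟨u, hu⟩
  -- the polynomial of `g'`
  obtain ⟨k, G, hG⟩ := conj_poly ρS hρS g'
  have hG0 : G ≠ 0 := by
    intro h0
    obtain ⟨Ω, iΩ, hΩ, χ, hχg⟩ := exists_geom_point g' hg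
    have hχδ : χ (algebraMap R (HomRing R A m) δ) ≠ 0 := by
      intro h
      apply hχg
      rw [hg', map_mul, h, mul_zero]
    obtain ⟨ψ, hψ⟩ := hext Ω (χ.comp (algebraMap R (HomRing R A m))) (hδall Ω _ hχδ).2.1
    obtain ⟨u, hu⟩ := key Ω (χ.comp (algebraMap R (HomRing R A m))) ψ hψ hχδ
      (fun i => χ.mapMatrix.comp (univ R A m i)) (fun i => (univ_over i).comp χ)
    have h1 := hG Ω ψ u
    rw [h0, eval₂_zero] at h1
    have h2 : ∀ i, (u i : Matrix (Fin (m i)) (Fin (m i)) Ω).det ≠ 0 := fun i =>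
      ((Matrix.isUnit_iff_isUnit_det _).1 (u i).isUnit).ne_zero
    rcases mul_eq_zero.1 h1.symm with h3 | h3
    · exact Finset.prod_ne_zero_iff.2 (fun i _ => h2 i) (eq_zero_of_pow_eq_zero h3)
    · apply hχg
      rw [← h3]
      conv_lhs => rw [eq_lift χ]
      exact lift_congr _ _ hψ.symm hu g'
  -- a coefficient which is not zero
  obtain ⟨n0, hn0⟩ : ∃ n0, G.coeff n0 ≠ 0 := by
    by_contra h
    push Not at h
    exact hG0 (MvPolynomial.ext _ _ fun n => by rw [h n, coeff_zero])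
  obtain ⟨d4, hd4, c4, hc4⟩ := exists_mul S (G.coeff n0) hn0
  have hδ0 : δ ≠ 0 := mul_ne_zero (mul_ne_zero
    (Finset.prod_ne_zero_iff.2 fun i _ => hδ1 i) hδ2) (Finset.prod_ne_zero_iff.2 fun i _ => hd3 i)
  obtain ⟨φ, hgood, hφ, hρ⟩ := hpt (δ * d4) (mul_ne_zero hδ0 hd4)
  choose ρL hρL using hρ
  rw [map_mul] at hφ
  let ι : L →+* AlgebraicClosure L := algebraMap L (AlgebraicClosure L)
  have hι : Function.Injective ι := ι.injective
  let φ' : R →+* AlgebraicClosure L := ι.comp (φ : R →+* L)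
  have hφδ : φ' δ ≠ 0 := fun h => left_ne_zero_of_mul hφ ((map_eq_zero_iff _ hι).1 h)
  have hφ4 : φ' d4 ≠ 0 := fun h => right_ne_zero_of_mul hφ ((map_eq_zero_iff _ hι).1 h)
  obtain ⟨ψ, hψ⟩ := hext (AlgebraicClosure L) φ' (hδall _ φ' hφδ).2.1
  have hψc : ψ (G.coeff n0) ≠ 0 := by
    intro h0
    apply hφ4
    rw [← hψ, RingHom.comp_apply, hc4, map_mul, h0, zero_mul]
  obtain ⟨v, hv⟩ := key _ φ' ψ hψ hφδ (fun i => ι.mapMatrix.comp (ρL i))
    (fun i => (hρL i).comp ι)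
  have hGψ : map ψ G ≠ 0 := by
    intro h0
    apply hψc
    have h1 := congrArg (coeff n0) h0
    rwa [coeff_map, coeff_zero] at h1
  -- the point of the torsor
  obtain ⟨y, hy⟩ : ∃ y : ∀ i, (Matrix (Fin (m i)) (Fin (m i)) L)ˣ,
      eval (fun w : Σ i : Fin r, Fin (m i) × Fin (m i) =>
        ((ι.mapMatrix (y w.1 : Matrix (Fin (m w.1)) (Fin (m w.1)) L) *
          (v w.1 : Matrix (Fin (m w.1)) (Fin (m w.1)) (AlgebraicClosure L))) w.2.1 w.2.2))
        (map ψ G) ≠ 0 := by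
    obtain ⟨y, hy, hy2⟩ := Pool.Agent.Helper55.BR.exists_pt m (L := L) (map ψ G) hGψ
      (fun i => (v i : Matrix (Fin (m i)) (Fin (m i)) (AlgebraicClosure L)))
      (fun i => (Matrix.isUnit_iff_isUnit_det _).1 (v i).isUnit)
    refine ⟨fun i => ((Matrix.isUnit_iff_isUnit_det _).2 (hy i)).unit, ?_⟩
    exact hy2
  let χ0 : HomRing R A m →+* L := lift (φ : R →+* L) (fun i => (conj (y i)).comp (ρL i))
    (fun i => (hρL i).conj (y i))
  obtain ⟨χ1, hχ1, hχφ⟩ := exists_algHom φ χ0 (fun c => lift_algebraMap _ _ _ c)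
  refine ⟨χ1, ?_, ?_⟩
  · rw [hχφ]
    exact hgood
  rw [hχ1]
  intro h0
  apply hy
  have h1 : ι (χ0 g') = 0 := by rw [h0, map_zero]
  let u : ∀ i, (Matrix (Fin (m i)) (Fin (m i)) (AlgebraicClosure L))ˣ := fun i =>
    Units.map (RingHom.toMonoidHom ι.mapMatrix) (y i) * v i
  have h2 := hG (AlgebraicClosure L) ψ u
  rw [MvPolynomial.eval_map]
  refine h2.trans ?_
  rw [← comp_lift (φ : R →+* L) (fun i => (conj (y i)).comp (ρL i))
    (fun i => (hρL i).conj (y i)) ι (ψ.comp (algebraMap R S))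
    (fun i => (conj (u i)).comp (ψ.mapMatrix.comp (ρS i)))
    (fun i => ((hρS i).comp ψ).conj (u i)) hψ.symm ?_ g']
  · change _ * ι (χ0 g') = 0
    rw [h1, mul_zero]
  · intro i
    rw [← RingHom.comp_assoc, map_conj, RingHom.comp_assoc]
    have h3 := hv i
    rw [h3, ← RingHom.comp_assoc, conj_conj]

/-- **P9.** -/
theorem end_points {K : Type} [Field K] {R : Type} [CommRing R] [IsDomain R] [Algebra K R] {r : ℕ}
    (A : Fin r → Type) [∀ i, Ring (A i)] [∀ i, Algebra R (A i)] [∀ i, Module.Finite R (A i)]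
    (m : Fin r → ℕ)
    (hc : ∀ i, Algebra.IsCentral (FractionRing R) (FractionRing R ⊗[R] A i))
    (hs : ∀ i, IsSimpleRing (FractionRing R ⊗[R] A i))
    (hm : ∀ i, Module.finrank (FractionRing R) (FractionRing R ⊗[R] A i) = m i ^ 2)
    (L : Type) [Field L] [Infinite L] [Algebra K L]
    (hpt : ∀ f : R, f ≠ 0 → ∃ φ : R →ₐ[K] L, φ f ≠ 0 ∧
      ∀ i, ∃ ρ : A i →+* Matrix (Fin (m i)) (Fin (m i)) L, Over (φ : R →+* L) ρ) :
    ∃ δ : R, δ ≠ 0 ∧ ∀ g : HomRing R A m,
      ¬ IsNilpotent (g * algebraMap R (HomRing R A m) δ) →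
      ∃ χ : HomRing R A m →ₐ[K] L, χ (g * algebraMap R (HomRing R A m) δ) ≠ 0 := by
  obtain ⟨δ, hδ, h⟩ := end_points_good A m hc hs hm L (fun _ => True)
    (fun f hf => (hpt f hf).imp fun φ hφ => ⟨trivial, hφ⟩)
  exact ⟨δ, hδ, fun g hg => (h g hg).imp fun χ hχ => hχ.2⟩

/-- **P10.** the scheme form -/
theorem end_br (K : Type) [Field K] [NumberField K] {R : Type} [CommRing R] [IsDomain R]
    [Algebra K R] {r : ℕ}
    (A : Fin r → Type) [∀ i, Ring (A i)] [∀ i, Algebra R (A i)] [∀ i, Module.Finite R (A i)]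
    (m : Fin r → ℕ)
    (hc : ∀ i, Algebra.IsCentral (FractionRing R) (FractionRing R ⊗[R] A i))
    (hs : ∀ i, IsSimpleRing (FractionRing R ⊗[R] A i))
    (hm : ∀ i, Module.finrank (FractionRing R) (FractionRing R ⊗[R] A i) = m i ^ 2)
    (L : Type) [Field L] [Algebra K L] [FiniteDimensional K L]
    (hpt : ∀ f : R, f ≠ 0 → ∃ φ : R →ₐ[K] L, φ f ≠ 0 ∧
      ∀ i, ∃ ρ : A i →+* Matrix (Fin (m i)) (Fin (m i)) L, Over (φ : R →+* L) ρ) :
    ∃ δ : R, δ ≠ 0 ∧ ∀ (X : Scheme.{0}) (s : X ⟶ Spec (CommRingCat.of K)),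
      DominatedOver K X
        (Spec (CommRingCat.of (Localization.Away (algebraMap R (HomRing R A m) δ)))) s
        (Spec.map (CommRingCat.ofHom
          (algebraMap K (Localization.Away (algebraMap R (HomRing R A m) δ))))) →
      PotentiallyDense K X s := by
  have hinf : Infinite L := Infinite.of_injective _ (algebraMap K L).injective
  obtain ⟨δ, hδ, h⟩ := end_points A m hc hs hm L hpt
  refine ⟨δ, hδ, fun X s hX => PotentiallyDense.of_dominated hX
    ⟨L, inferInstance, inferInstance, inferInstance, dense_ratPts_spec' K L _ fun g hg => ?_⟩⟩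
  obtain ⟨⟨g0, ⟨_, k, rfl⟩⟩, hg0⟩ :=
    IsLocalization.surj (Submonoid.powers (algebraMap R (HomRing R A m) δ)) g
  simp only at hg0
  have hu : IsUnit (algebraMap (HomRing R A m)
      (Localization.Away (algebraMap R (HomRing R A m) δ)) (algebraMap R (HomRing R A m) δ)) :=
    IsLocalization.Away.algebraMap_isUnit _
  have hn : ¬ IsNilpotent (g0 * algebraMap R (HomRing R A m) δ) := by
    intro hn
    apply hg
    have h1 := hn.map (algebraMap (HomRing R A m)
      (Localization.Away (algebraMap R (HomRing R A m) δ)))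
    rw [map_mul, ← hg0, mul_assoc, map_pow] at h1
    have h2 : IsUnit (algebraMap (HomRing R A m)
        (Localization.Away (algebraMap R (HomRing R A m) δ)) (algebraMap R (HomRing R A m) δ) ^ k *
        algebraMap (HomRing R A m) (Localization.Away (algebraMap R (HomRing R A m) δ))
          (algebraMap R (HomRing R A m) δ)) := (hu.pow k).mul hu
    exact ((Commute.all _ _).isNilpotent_mul_right_iff h2.mem_nonZeroDivisors.2).1 h1
  obtain ⟨χ, hχ⟩ := h g0 hn
  rw [map_mul] at hχ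
  have hf : ∀ y : Submonoid.powers (algebraMap R (HomRing R A m) δ), IsUnit (χ y) := by
    rintro ⟨_, j, rfl⟩
    rw [map_pow]
    exact (IsUnit.mk0 _ (right_ne_zero_of_mul hχ)).pow j
  refine ⟨IsLocalization.liftAlgHom (M := Submonoid.powers (algebraMap R (HomRing R A m) δ))
    (S := Localization.Away (algebraMap R (HomRing R A m) δ)) (f := χ) hf, fun h0 => ?_⟩
  apply left_ne_zero_of_mul hχ
  have h1 := congrArg (IsLocalization.liftAlgHom
    (M := Submonoid.powers (algebraMap R (HomRing R A m) δ))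
    (S := Localization.Away (algebraMap R (HomRing R A m) δ)) (f := χ) hf) hg0
  rw [map_mul, h0, zero_mul] at h1
  rw [h1]
  exact (IsLocalization.lift_eq _ _).symm

end Pool.Agent.Helper35.BR
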