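import Pool.Agent.Helper35.BR.Defs
import Pool.Agent.Helper65.CB.Dom

/-!
# BR, block END: frames (do not import)
-/

set_option autoImplicit false

namespace Pool.Agent.Helper35.BR

open MvPolynomial TensorProduct AlgebraicGeometry CategoryTheory Pool.Agent.Helper15
open Pool.Agent.Helper65.CB

/-- **P2.** Skolem-Noether: two representations over a field are conjugate.  (`ρ (e j)` is a basis of
the matrices, `θ : ρ (e j) ↦ ρ' (e j)` is multiplicative, so an algebra endomorphism of a simple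
ring; `AlgEquiv.eq_linearEquivConjAlgEquiv`.) -/
theorem skolem {Ω : Type} [Field Ω] {m : ℕ} {R : Type} [CommRing R] {A : Type} [Ring A]
    [Algebra R A] (φ : R →+* Ω) (e : Fin m × Fin m → A)
    (hspan : ∀ a : A, ∃ (d : R) (c : Fin m × Fin m → R), φ d ≠ 0 ∧ d • a = ∑ j, c j • e j)
    (ρ ρ' : A →+* Matrix (Fin m) (Fin m) Ω) (hρ : Over φ ρ) (hρ' : Over φ ρ')
    (hdet : (Matrix.of fun j k : Fin m × Fin m => ρ (e j) k.1 k.2).det ≠ 0) :
    ∃ u : (Matrix (Fin m) (Fin m) Ω)ˣ, ρ' = (conj u).comp ρ := by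
  sorry

/-- **P3a.** splitting over the algebraic closure, in matrix form -/
theorem split_closure {F : Type} [Field F] (B : Type) [Ring B] [Algebra F B]
    [Algebra.IsCentral F B] [IsSimpleRing B] [FiniteDimensional F B] (m : ℕ)
    (hm : Module.finrank F B = m ^ 2) :
    ∃ ρ : B →ₐ[F] Matrix (Fin m) (Fin m) (AlgebraicClosure F),
      ∀ b : Module.Basis (Fin m × Fin m) F B,
        (Matrix.of fun j k : Fin m × Fin m => ρ (b j) k.1 k.2).det ≠ 0 := by
  sorry

/-- **P3b.** generic basis and splitting (P3a for `B = Frac R ⊗ A`, a basis of the form `1 ⊗ e j`,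
clear denominators and torsion) -/
theorem generic_split {R : Type} [CommRing R] [IsDomain R] (A : Type) [Ring A] [Algebra R A]
    [Module.Finite R A] (m : ℕ) (hc : Algebra.IsCentral (FractionRing R) (FractionRing R ⊗[R] A))
    (hs : IsSimpleRing (FractionRing R ⊗[R] A))
    (hm : Module.finrank (FractionRing R) (FractionRing R ⊗[R] A) = m ^ 2) :
    ∃ (e : Fin m × Fin m → A) (δ : R)
      (ρ : A →+* Matrix (Fin m) (Fin m) (AlgebraicClosure (FractionRing R))), δ ≠ 0 ∧
      Over (algebraMap R (AlgebraicClosure (FractionRing R))) ρ ∧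
      (∀ a, ∃ c : Fin m × Fin m → R, δ • a = ∑ j, c j • e j) ∧
      (Matrix.of fun j k : Fin m × Fin m => ρ (e j) k.1 k.2).det ≠ 0 := by
  sorry

/-- **P4.** the entries generate a finitely generated subalgebra -/
theorem descend_S {R : Type} [CommRing R] {E : Type} [Field E] [Algebra R E] {r : ℕ}
    (A : Fin r → Type) [∀ i, Ring (A i)] [∀ i, Algebra R (A i)] [∀ i, Module.Finite R (A i)]
    (m : Fin r → ℕ) (ρ : ∀ i, A i →+* Matrix (Fin (m i)) (Fin (m i)) E)
    (hρ : ∀ i, Over (algebraMap R E) (ρ i)) :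
    ∃ S : Subalgebra R E, S.FG ∧ ∃ ρS : ∀ i, A i →+* Matrix (Fin (m i)) (Fin (m i)) S,
      (∀ i, Over (algebraMap R S) (ρS i)) ∧
      ∀ i, ((S.val : S →+* E).mapMatrix).comp (ρS i) = ρ i := by
  sorry

/-- **P5.** points of `R` extend to `S` (generators algebraic over `R`; `S` is integral over `R`
after inverting the leading coefficients; lying over and `IsAlgClosed.lift`) -/
theorem exists_ext {R : Type} [CommRing R] [IsDomain R]
    (S : Subalgebra R (AlgebraicClosure (FractionRing R))) (hS : S.FG) :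
    ∃ δ : R, δ ≠ 0 ∧ ∀ (Ω : Type) [Field Ω] [IsAlgClosed Ω] (φ : R →+* Ω), φ δ ≠ 0 →
      ∃ ψ : S →+* Ω, ψ.comp (algebraMap R S) = φ := by
  sorry

/-- **P6.** a nonzero element of `S` divides a nonzero element of `R` -/
theorem exists_mul {R : Type} [CommRing R] [IsDomain R]
    (S : Subalgebra R (AlgebraicClosure (FractionRing R))) (c : S) (hc : c ≠ 0) :
    ∃ d : R, d ≠ 0 ∧ c ∣ algebraMap R S d := by
  sorry

/-- **P7.** a nonzero polynomial over a larger field does not vanish at some point over `L` -/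
theorem exists_point {L Ω : Type} [Field L] [Infinite L] [Field Ω] [Algebra L Ω] {σ : Type}
    [Finite σ] (G : MvPolynomial σ Ω) (hG : G ≠ 0) :
    ∃ x : σ → L, eval (fun j => algebraMap L Ω (x j)) G ≠ 0 := by
  sorry

/-- **P8.** the value of `g` at the conjugates of `ρ` is a polynomial in the entries of `u`, up to a
power of the determinants (induction on a polynomial representing `g`; `u x u⁻¹` is
`u x adj(u) / det u`) -/
theorem conj_poly {R : Type} [CommRing R] {r : ℕ} {A : Fin r → Type} [∀ i, Ring (A i)]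
    [∀ i, Algebra R (A i)] {m : Fin r → ℕ} {S : Type} [CommRing S] [Algebra R S]
    (ρ : ∀ i, A i →+* Matrix (Fin (m i)) (Fin (m i)) S) (hρ : ∀ i, Over (algebraMap R S) (ρ i))
    (g : HomRing R A m) :
    ∃ (k : ℕ) (G : MvPolynomial (Σ i : Fin r, Fin (m i) × Fin (m i)) S),
      ∀ (Ω : Type) [Field Ω] (ψ : S →+* Ω) (u : ∀ i, (Matrix (Fin (m i)) (Fin (m i)) Ω)ˣ),
        eval₂ ψ (fun v => (u v.1 : Matrix (Fin (m v.1)) (Fin (m v.1)) Ω) v.2.1 v.2.2) G =
          (∏ i, (u i : Matrix (Fin (m i)) (Fin (m i)) Ω).det) ^ k *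
          lift (ψ.comp (algebraMap R S)) (fun i => (conj (u i)).comp (ψ.mapMatrix.comp (ρ i)))
            (fun i => ((hρ i).comp ψ).conj (u i)) g := by
  sorry

/-- **P10a.** density of `L`-points, nilpotent elements allowed (copy of
`Pool.Agent.Helper15.dense_ratPts_spec`) -/
theorem dense_ratPts_spec' (K : Type) [Field K] (L : Type) [Field L] [Algebra K L]
    (A : Type) [CommRing A] [Algebra K A]
    (h : ∀ g : A, ¬ IsNilpotent g → ∃ φ : A →ₐ[K] L, φ g ≠ 0) :
    Dense (ratPts K L (Spec (CommRingCat.of A))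
      (Spec.map (CommRingCat.ofHom (algebraMap K A)))) := by
  sorry

/-- **P11.** an Azumaya algebra is generically central simple (every linear endomorphism of
`F ⊗ A` is a sum of maps `x ↦ a x b`: `IsAzumaya.bij` and base change) -/
theorem generic_of_azumaya {R : Type} [CommRing R] [IsDomain R] (A : Type) [Ring A] [Algebra R A]
    [IsAzumaya R A] :
    Algebra.IsCentral (FractionRing R) (FractionRing R ⊗[R] A) ∧
      IsSimpleRing (FractionRing R ⊗[R] A) := by
  sorry

/-- **P9.** (helper35) -/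
theorem end_points {K : Type} [Field K] {R : Type} [CommRing R] [IsDomain R] [Algebra K R] {r : ℕ}
    (A : Fin r → Type) [∀ i, Ring (A i)] [∀ i, Algebra R (A i)] [∀ i, Module.Finite R (A i)]
    (m : Fin r → ℕ)
    (hc : ∀ i, Algebra.IsCentral (FractionRing R) (FractionRing R ⊗[R] A i))
    (hs : ∀ i, IsSimpleRing (FractionRing R ⊗[R] A i))
    (hm : ∀ i, Module.finrank (FractionRing R) (FractionRing R ⊗[R] A i) = m i ^ 2)
    (L : Type) [Field L] [Infinite L] [Algebra K L]
    (hpt : ∀ f : R, f ≠ 0 → ∃ φ : R →ₐ[K] L, φ f ≠ 0 ∧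
      ∀ i, ∃ ρ : A i →+* Matrix (Fin (m i)) (Fin (m i)) L, Over (φ : R →+* L) ρ) :
    ∃ δ : R, δ ≠ 0 ∧ ∀ g : HomRing R A m,
      ¬ IsNilpotent (g * algebraMap R (HomRing R A m) δ) →
      ∃ χ : HomRing R A m →ₐ[K] L, χ (g * algebraMap R (HomRing R A m) δ) ≠ 0 := by
  sorry

/-- **P10.** (helper35) the scheme form -/
theorem end_br (K : Type) [Field K] [NumberField K] {R : Type} [CommRing R] [IsDomain R]
    [Algebra K R] {r : ℕ}
    (A : Fin r → Type) [∀ i, Ring (A i)] [∀ i, Algebra R (A i)] [∀ i, Module.Finite R (A i)]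
    (m : Fin r → ℕ)
    (hc : ∀ i, Algebra.IsCentral (FractionRing R) (FractionRing R ⊗[R] A i))
    (hs : ∀ i, IsSimpleRing (FractionRing R ⊗[R] A i))
    (hm : ∀ i, Module.finrank (FractionRing R) (FractionRing R ⊗[R] A i) = m i ^ 2)
    (L : Type) [Field L] [Algebra K L] [FiniteDimensional K L]
    (hpt : ∀ f : R, f ≠ 0 → ∃ φ : R →ₐ[K] L, φ f ≠ 0 ∧
      ∀ i, ∃ ρ : A i →+* Matrix (Fin (m i)) (Fin (m i)) L, Over (φ : R →+* L) ρ) :
    ∃ δ : R, δ ≠ 0 ∧ ∀ (X : Scheme.{0}) (s : X ⟶ Spec (CommRingCat.of K)),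
      DominatedOver K X
        (Spec (CommRingCat.of (Localization.Away (algebraMap R (HomRing R A m) δ)))) s
        (Spec.map (CommRingCat.ofHom
          (algebraMap K (Localization.Away (algebraMap R (HomRing R A m) δ))))) →
      PotentiallyDense K X s := by
  sorry

end Pool.Agent.Helper35.BR
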